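import Pool.Agent.K1H79.TW.Stm

/-!
# Project TW, piece I: comparison of the regulators
-/

set_option autoImplicit false

namespace Pool.Agent.K1H10.TW

open NumberField Filter Pool.Agent.K1H79.TW

theorem rank_le (K : Type) [Field K] [NumberField K] :
    Units.rank K ≤ Module.finrank ℚ K := by
  have h1 := InfinitePlace.card_add_two_mul_card_eq_rank K
  have h2 := InfinitePlace.card_eq_nrRealPlaces_add_nrComplexPlaces K
  unfold Units.rank
  omega

theorem t_REG (hK : S_KRO) (hC : S_CNT) (hR : S_REL) : S_REG := by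
  intro n
  obtain ⟨B, hB, h⟩ := hR hK n
  have hB1 : (1 : ℝ) ≤ B := by exact_mod_cast hB
  have hB0 : (0 : ℝ) < B := by linarith
  refine ⟨(B : ℝ) ^ (n + 1), by positivity, ?_⟩
  intro E K _ _ _ _ _ hn
  obtain ⟨hr, hcnt⟩ := h E K hn
  have hE := hC E
  have hKK := hC K
  have hRE : 0 < Units.regulator E := Units.regulator_pos E
  have hRK : 0 < Units.regulator K := Units.regulator_pos K
  have hrn : Units.rank E ≤ n := hr.trans (by rw [← hn]; exact rank_le K)
  have hmul : Tendsto (fun T : ℕ => B * T) atTop atTop :=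
    tendsto_atTop_mono (fun T => Nat.le_mul_of_pos_left T hB) tendsto_id
  have hlim : Tendsto (fun T : ℕ => (cnt E (B * T) : ℝ) / ((B * T : ℕ) : ℝ) ^ (Units.rank E) *
      ((B : ℝ) ^ (Units.rank E) * B)) atTop
      (nhds (2 ^ (Units.rank E) / Units.regulator E * ((B : ℝ) ^ (Units.rank E) * B))) :=
    (hE.comp hmul).mul_const _
  have hle := le_of_tendsto_of_tendsto hKK hlim (by
    filter_upwards [eventually_ge_atTop 1] with T hT
    have hT0 : (0 : ℝ) < T := by exact_mod_cast hT
    have h1 : (cnt K T : ℝ) ≤ cnt E (B * T) * (B * (T : ℝ) ^ (Units.rank K - Units.rank E)) := by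
      exact_mod_cast hcnt T hT
    have h2 : (T : ℝ) ^ (Units.rank K) =
        (T : ℝ) ^ (Units.rank K - Units.rank E) * (T : ℝ) ^ (Units.rank E) :=
      (pow_sub_mul_pow _ hr).symm
    rw [div_le_iff₀ (pow_pos hT0 _)]
    refine h1.trans (le_of_eq ?_)
    rw [h2]
    push_cast
    rw [mul_pow]
    field_simp)
  -- the inequality of the limits
  have h3 : (2 : ℝ) ^ (Units.rank K) * Units.regulator E ≤
      2 ^ (Units.rank E) * ((B : ℝ) ^ (Units.rank E) * B) * Units.regulator K := by
    rw [div_le_iff₀ hRK] at hle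
    have h4 := mul_le_mul_of_nonneg_right hle hRE.le
    refine h4.trans (le_of_eq ?_)
    field_simp
  have h5 : (2 : ℝ) ^ (Units.rank E) ≤ 2 ^ (Units.rank K) :=
    pow_le_pow_right₀ (by norm_num) hr
  have h6 : (B : ℝ) ^ (Units.rank E) * B ≤ (B : ℝ) ^ (n + 1) := by
    rw [← pow_succ]
    exact pow_le_pow_right₀ hB1 (by omega)
  have h7 : (2 : ℝ) ^ (Units.rank K) * Units.regulator E ≤
      2 ^ (Units.rank K) * ((B : ℝ) ^ (n + 1) * Units.regulator K) := by
    refine h3.trans ?_
    rw [mul_assoc]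
    exact mul_le_mul h5 (mul_le_mul_of_nonneg_right h6 hRK.le) (by positivity) (by positivity)
  exact le_of_mul_le_mul_left h7 (by positivity)

theorem t_LOW (hG : S_REG) (hF : S_CNF) : S_LOW := by
  intro n
  obtain ⟨C', hC', hcnf⟩ := hF n
  choose C hC h using hG
  have hr0 : 0 < Units.regulator ℚ := Units.regulator_pos ℚ
  obtain ⟨S, hS⟩ : ∃ S : ℝ, S = ∑ m ∈ Finset.range (n + 1), C m := ⟨_, rfl⟩
  have hCS : ∀ m ≤ n, C m ≤ S := by
    intro m hm
    rw [hS]
    exact Finset.single_le_sum (f := C) (fun i _ => (hC i).le) (Finset.mem_range.2 (by omega))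
  have hS0 : 0 < S := lt_of_lt_of_le (hC 0) (hCS 0 (Nat.zero_le _))
  refine ⟨Units.regulator ℚ / (S * C'), by positivity, ?_⟩
  intro F _ _ hFn
  have h1 : Units.regulator ℚ ≤ C (Module.finrank ℚ F) * Units.regulator F :=
    h (Module.finrank ℚ F) ℚ F rfl
  have hRF : 0 < Units.regulator F := Units.regulator_pos F
  have h2 : Units.regulator ℚ ≤ S * Units.regulator F :=
    h1.trans (mul_le_mul_of_nonneg_right (hCS _ hFn) hRF.le)
  have h3 := (hcnf F hFn).1
  have h4 : (1 : ℝ) ≤ classNumber F := by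
    have : 0 < classNumber F := Nat.pos_of_ne_zero (classNumber_ne_zero F)
    exact_mod_cast this
  have h5 : Units.regulator F ≤ classNumber F * Units.regulator F :=
    le_mul_of_one_le_left hRF.le h4
  have h6 : Units.regulator ℚ ≤
      S * (C' * (dedekindZeta_residue F * √|(discr F : ℝ)|)) :=
    h2.trans (mul_le_mul_of_nonneg_left (h5.trans h3) hS0.le)
  rw [div_le_iff₀ (by positivity)]
  refine h6.trans (le_of_eq ?_)
  ring

theorem t_REGof : S_REGof := by
  intro hK hC hR hF
  exact ⟨t_REG hK hC hR, t_LOW (t_REG hK hC hR) hF⟩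

end Pool.Agent.K1H10.TW
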